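import Mathlib

open MeasureTheory Finset Classical

namespace Pool.Agent.Results.MP_3fb035_pr.Cut

/-- Neighbours of `v` in the Cayley graph of `ℤ` with generators `±1, ±2`. -/
def Nb (v : ℤ) : Finset ℤ := {v - 2, v - 1, v + 1, v + 2}

/-- The edge `{a, b}` was crossed by the path `x` up to time `t`. -/
def Used (x : ℕ → ℤ) (t : ℕ) (a b : ℤ) : Prop :=
  ∃ s < t, (x s = a ∧ x (s + 1) = b) ∨ (x s = b ∧ x (s + 1) = a)

/-- Endpoints of the unused edges at `x t`. -/
noncomputable def J (x : ℕ → ℤ) (t : ℕ) : Finset ℤ :=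
  (Nb (x t)).filter fun u => ¬ Used x t (x t) u

/-- Probability that the greedy walk with history `x 0, ..., x t` steps to `x (t + 1)`. -/
noncomputable def q (x : ℕ → ℤ) (t : ℕ) : ENNReal :=
  if (J x t).Nonempty then (if x (t + 1) ∈ J x t then ((J x t).card : ENNReal)⁻¹ else 0)
  else if x (t + 1) ∈ Nb (x t) then 4⁻¹ else 0

lemma us (x : ℕ → ℤ) (t : ℕ) (a b : ℤ) : Used x (t + 1) a b ↔
    Used x t a b ∨ (x t = a ∧ x (t + 1) = b) ∨ (x t = b ∧ x (t + 1) = a) := by
  simp only [Used, Nat.exists_lt_succ_right]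

lemma u0 (x : ℕ → ℤ) (a b : ℤ) : ¬ Used x 0 a b := by simp [Used]

lemma usy (x : ℕ → ℤ) (t : ℕ) (a b : ℤ) : Used x t a b ↔ Used x t b a := by
  simp only [Used, or_comm]

lemma qc {x y : ℕ → ℤ} {t : ℕ} (h : ∀ s ≤ t + 1, x s = y s) : q x t = q y t := by
  have hu : ∀ a b, Used x t a b ↔ Used y t a b := fun a b =>
    exists_congr fun s => and_congr_right fun hs => by rw [h s (by omega), h (s + 1) (by omega)]
  have : J x t = J y t := by simp only [J, hu, h t (by omega)]
  simp only [q, this, h t (by omega), h (t + 1) le_rfl]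

lemma qpos {x : ℕ → ℤ} {t : ℕ} (h : x (t + 1) ∈ J x t) : q x t ≠ 0 := by
  unfold q
  rw [if_pos ⟨_, h⟩, if_pos h]
  simp

noncomputable def I (x : ℕ → ℤ) (t : ℕ) (a b : ℤ) : ℕ := if Used x t a b then 1 else 0

lemma cnt (A B v : ℤ) (h : B = A - 2 ∨ B = A - 1 ∨ B = A + 1 ∨ B = A + 2) :
    (if (A = v ∧ B = v - 2) ∨ (A = v - 2 ∧ B = v) then 1 else 0) +
    (if (A = v ∧ B = v - 1) ∨ (A = v - 1 ∧ B = v) then 1 else 0) +
    (if (A = v ∧ B = v + 1) ∨ (A = v + 1 ∧ B = v) then 1 else 0) +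
    (if (A = v ∧ B = v + 2) ∨ (A = v + 2 ∧ B = v) then 1 else 0) =
    if v = A ∨ v = B then 1 else (0 : ℕ) := by
  split_ifs <;> omega

lemma det (x : ℕ → ℤ) (h0 : x 0 = 0) (h1 : x 1 = 2) (h2 : x 2 = 1) (h3 : x 3 = 3)
    (hq : ∀ t, q x t ≠ 0) (t : ℕ) : 2 ≤ x (t + 3) ∧ Used x (t + 3) 2 0 ∧ Used x (t + 3) 2 1 ∧
      Used x (t + 3) 3 1 ∧ ∀ v, 2 ≤ v → (I x (t + 3) v (v - 2) + I x (t + 3) v (v - 1) +
        I x (t + 3) v (v + 1) + I x (t + 3) v (v + 2)) % 2 = if v = x (t + 3) then 1 else 0 := by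
  induction t with
  | zero =>
    have hu : ∀ a b, Used x (0 + 3) a b ↔ ((0 = a ∧ 2 = b) ∨ (0 = b ∧ 2 = a)) ∨
        ((2 = a ∧ 1 = b) ∨ (2 = b ∧ 1 = a)) ∨ ((1 = a ∧ 3 = b) ∨ (1 = b ∧ 3 = a)) := by
      intro a b
      rw [show 0 + 3 = 0 + 1 + 1 + 1 from rfl, us, us, us]
      simp only [u0, zero_add, Nat.reduceAdd, h0, h1, h2, h3, false_or, or_assoc]
    have h3' : x (0 + 3) = 3 := h3
    refine ⟨by omega, by rw [hu]; omega, by rw [hu]; omega, by rw [hu]; omega, fun v hv => ?_⟩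
    rw [h3']
    obtain rfl | rfl | h4 : v = 2 ∨ v = 3 ∨ 4 ≤ v := by omega
    · simp only [I, hu]; norm_num
    · simp only [I, hu]; norm_num
    · have : ∀ u, ¬ Used x (0 + 3) v u := fun u h => by rw [hu] at h; omega
      simp only [I, this, if_false]
      rw [if_neg (by omega)]
  | succ t ih =>
    obtain ⟨a, b, c, d, e⟩ := ih
    have hJ : (J x (t + 3)).Nonempty := by
      by_contra hn
      rw [not_nonempty_iff_eq_empty, J, filter_eq_empty_iff] at hn
      have := e _ a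
      simp only [I, not_not.1 (hn (x := x (t + 3) - 2) (by simp [Nb])),
        not_not.1 (hn (x := x (t + 3) - 1) (by simp [Nb])),
        not_not.1 (hn (x := x (t + 3) + 1) (by simp [Nb])),
        not_not.1 (hn (x := x (t + 3) + 2) (by simp [Nb]))] at this
      simp at this
    have hw : x (t + 3 + 1) ∈ J x (t + 3) := by
      by_contra hn
      exact hq (t + 3) (by unfold q; rw [if_pos hJ, if_neg hn])
    obtain ⟨w1, w2⟩ := mem_filter.1 hw
    have w3 : ¬ Used x (t + 3) (x (t + 3 + 1)) (x (t + 3)) := fun h => w2 ((usy _ _ _ _).1 h)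
    simp only [Nb, mem_insert, mem_singleton] at w1
    rw [show t + 1 + 3 = t + 3 + 1 by ring]
    refine ⟨?_, (us _ _ _ _).2 (Or.inl b), (us _ _ _ _).2 (Or.inl c), (us _ _ _ _).2 (Or.inl d),
      fun v hv => ?_⟩
    · by_contra hn
      have : (x (t + 3) = 2 ∧ x (t + 3 + 1) = 0) ∨ (x (t + 3) = 2 ∧ x (t + 3 + 1) = 1) ∨
          (x (t + 3) = 3 ∧ x (t + 3 + 1) = 1) := by omega
      rcases this with h | h | h <;> rw [h.1, h.2] at w2 <;> contradiction
    have hI : ∀ u, I x (t + 3 + 1) v u = I x (t + 3) v u +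
        if (x (t + 3) = v ∧ x (t + 3 + 1) = u) ∨ (x (t + 3) = u ∧ x (t + 3 + 1) = v) then 1
        else 0 := by
      intro u
      simp only [I, us]
      by_cases h : (x (t + 3) = v ∧ x (t + 3 + 1) = u) ∨ (x (t + 3) = u ∧ x (t + 3 + 1) = v)
      · have : ¬ Used x (t + 3) v u := by
          rcases h with h | h
          · rw [← h.1, ← h.2]; exact w2
          · rw [← h.1, ← h.2]; exact w3
        simp only [← us]
        rw [if_pos ((us _ _ _ _).2 (Or.inr h)), if_neg this, if_pos h]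
      · simp only [h, or_false, if_false, add_zero]
    have := e v hv
    have k := cnt _ _ v w1
    simp only [hI]
    by_cases p1 : v = x (t + 3)
    · rw [if_pos p1] at this
      rw [if_pos (Or.inl p1)] at k
      rw [if_neg (show ¬ v = x (t + 3 + 1) by omega)]
      omega
    · rw [if_neg p1] at this
      by_cases p2 : v = x (t + 3 + 1)
      · rw [if_pos (Or.inr p2)] at k
        rw [if_pos p2]
        omega
      · rw [if_neg (not_or.2 ⟨p1, p2⟩)] at k
        rw [if_neg p2]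
        omega

theorem result {Ω : Type} [MeasurableSpace Ω] (P : Measure Ω) [IsProbabilityMeasure P]
    (X : ℕ → Ω → ℤ) (h0 : ∀ ω, X 0 ω = 0)
    (h : ∀ (x : ℕ → ℤ) (t : ℕ), P {ω | ∀ s ≤ t + 1, X s ω = x s} =
      P {ω | ∀ s ≤ t, X s ω = x s} * q x t) :
    0 < P {ω | ∃ t, 1 ≤ t ∧ X t ω = 0} ∧ 0 < P {ω | ∀ t, 1 ≤ t → X t ω ≠ 0} := by
  have pos : ∀ x : ℕ → ℤ, x 0 = 0 → (∀ t < 3, q x t ≠ 0) → P {ω | ∀ s ≤ 3, X s ω = x s} ≠ 0 := by
    intro x hx hq
    rw [h x 2, h x 1, h x 0]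
    have : {ω | ∀ s ≤ 0, X s ω = x s} = Set.univ := by ext ω; simp [h0, hx]
    rw [this, measure_univ, one_mul]
    exact mul_ne_zero (mul_ne_zero (hq 0 (by omega)) (hq 1 (by omega))) (hq 2 (by omega))
  constructor
  · refine (pos_iff_ne_zero.2 (pos (fun s => if s = 3 then 0 else s) rfl fun t ht => qpos ?_)).trans_le
      (measure_mono fun ω hω => ⟨3, by norm_num, hω 3 le_rfl⟩)
    interval_cases t <;> simp [J, Nb, Used]
    intro s hs; interval_cases s <;> simp
  · set y : ℕ → ℤ := fun s => if s = 1 then 2 else if s = 2 then 1 else s with hy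
    have hE := pos y rfl fun t ht => qpos (by
      interval_cases t <;> simp [hy, J, Nb, Used]
      intro s hs; interval_cases s <;> simp)
    have hN : P {ω | ∃ t, q (fun s => X s ω) t = 0} = 0 := by
      rw [Set.setOf_exists]
      refine measure_iUnion_null fun t => ?_
      let ext : (Fin (t + 2) → ℤ) → ℕ → ℤ := fun z s => if hs : s < t + 2 then z ⟨s, hs⟩ else 0
      refine measure_mono_null (t := ⋃ z : {z // q (ext z) t = 0},
        {ω | ∀ s ≤ t + 1, X s ω = ext z.1 s}) (fun ω hω => ?_)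
        (measure_iUnion_null fun z => by rw [h, z.2, mul_zero])
      have e : ∀ s ≤ t + 1, X s ω = ext (fun i => X i ω) s := fun s hs => by
        simp only [ext, dif_pos (show s < t + 2 by omega)]
      exact Set.mem_iUnion.2 ⟨⟨fun i => X i ω, by rw [← qc e]; exact hω⟩, e⟩
    rw [pos_iff_ne_zero]
    intro hB
    refine hE (measure_mono_null (fun ω hω => ?_) (measure_union_null hN hB))
    by_contra hn
    simp only [Set.mem_union, Set.mem_setOf_eq, not_or, not_exists, not_forall, not_not] at hn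
    obtain ⟨hq, t, ht, hX⟩ := hn
    have a1 : X 1 ω = 2 := hω 1 (by norm_num)
    have a2 : X 2 ω = 1 := hω 2 (by norm_num)
    have a3 : X 3 ω = 3 := hω 3 (by norm_num)
    rcases lt_or_ge t 3 with h3 | h3
    · interval_cases t <;> omega
    · have := (det (fun s => X s ω) (h0 ω) a1 a2 a3 hq (t - 3)).1
      rw [Nat.sub_add_cancel h3] at this
      omega

end Pool.Agent.Results.MP_3fb035_pr.Cut
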